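import Pool.Agent.TH481.DenseMinor7
import Pool.Agent.H168DD.TB

/-! Hadwiger's conjecture for clique inflations of `2K₂`-free graphs: matchings and small branch
sets. -/

set_option autoImplicit false

namespace N684.HI

open Finset TH481.DM

/-- `K` has no induced `2K₂`: any two edges of `K` are joined by an edge of `K` (which may be one
of them if they meet). -/
def P2 {V : Type} (K : SimpleGraph V) : Prop :=
  ∀ a b c d : V, K.Adj a b → K.Adj c d → K.Adj a c ∨ K.Adj a d ∨ K.Adj b c ∨ K.Adj b d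

/-- `K_k` is a minor of `G` with branch sets of at most two vertices, all inside `U`. -/
def SMIn {V : Type} (G : SimpleGraph V) (U : Set V) (k : ℕ) : Prop :=
  ∃ f : Fin k → Set V, (∀ i, f i ⊆ U) ∧ (∀ i, (f i).encard ≤ 2) ∧
    (∀ i, (G.induce (f i)).Connected) ∧
    (∀ i j, i ≠ j → Disjoint (f i) (f j)) ∧ (∀ i j, i ≠ j → ∃ u ∈ f i, ∃ v ∈ f j, G.Adj u v)

/-- `K_k` is a minor of `G` with branch sets of at most two vertices. -/
def SM {V : Type} (G : SimpleGraph V) (k : ℕ) : Prop :=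
  ∃ f : Fin k → Set V, (∀ i, (f i).encard ≤ 2) ∧ (∀ i, (G.induce (f i)).Connected) ∧
    (∀ i j, i ≠ j → Disjoint (f i) (f j)) ∧ (∀ i j, i ≠ j → ∃ u ∈ f i, ∃ v ∈ f j, G.Adj u v)

lemma sm_of_family {V : Type} (G : SimpleGraph V) {ι : Type} [Fintype ι] (g : ι → Set V)
    (hs : ∀ i, (g i).encard ≤ 2)
    (hc : ∀ i, (G.induce (g i)).Connected) (hd : ∀ i j, i ≠ j → Disjoint (g i) (g j))
    (ha : ∀ i j, i ≠ j → ∃ u ∈ g i, ∃ v ∈ g j, G.Adj u v) (t : ℕ) (ht : t ≤ Fintype.card ι) :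
    SM G t := by
  obtain ⟨e⟩ : Nonempty (Fin t ↪ ι) :=
    Function.Embedding.nonempty_of_card_le (by simpa using ht)
  exact ⟨fun i => g (e i), fun i => hs _, fun i => hc _,
    fun i j h => hd _ _ (fun h' => h (e.injective h')),
    fun i j h => ha _ _ (fun h' => h (e.injective h'))⟩

lemma smIn_of_induce {V : Type} (G : SimpleGraph V) (U : Set V) (t : ℕ)
    (h : SM (G.induce U) t) : SMIn G U t := by
  obtain ⟨f, hs, hc, hd, ha⟩ := h
  refine ⟨fun i => Subtype.val '' (f i), ?_, ?_, ?_, ?_, ?_⟩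
  · rintro i _ ⟨x, _, rfl⟩
    exact x.2
  · intro i
    exact (Set.encard_image_le _ _).trans (hs i)
  · intro i
    let φ : ((G.induce U).induce (f i)) →g (G.induce (Subtype.val '' (f i))) :=
      { toFun := fun x => ⟨x.1.1, ⟨x.1, x.2, rfl⟩⟩
        map_rel' := fun {a b} h => by simpa using h }
    refine (hc i).map φ ?_
    rintro ⟨_, x, hx, rfl⟩
    exact ⟨⟨x, hx⟩, rfl⟩
  · intro i j hij
    rw [Set.disjoint_left]
    rintro _ ⟨x, hx, rfl⟩ ⟨y, hy, hxy⟩
    have : y = x := Subtype.ext hxy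
    rw [this] at hy
    exact (Set.disjoint_left.1 (hd i j hij)) hx hy
  · intro i j hij
    obtain ⟨u, hu, v, hv, huv⟩ := ha i j hij
    exact ⟨u.1, ⟨u, hu, rfl⟩, v.1, ⟨v, hv, rfl⟩, by simpa using huv⟩

lemma sm_join {V : Type} (G : SimpleGraph V) (A B : Set V) (a b : ℕ)
    (hA : SMIn G A a) (hB : SMIn G B b) (hj : ∀ x ∈ A, ∀ y ∈ B, G.Adj x y) (t : ℕ)
    (ht : t ≤ a + b) : SM G t := by
  obtain ⟨f, hfs, hf2, hfc, hfd, hfa⟩ := hA
  obtain ⟨g, hgs, hg2, hgc, hgd, hga⟩ := hB
  have hne : ∀ i, (f i).Nonempty := fun i => by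
    obtain ⟨⟨x, hx⟩⟩ := (hfc i).nonempty
    exact ⟨x, hx⟩
  have hne' : ∀ i, (g i).Nonempty := fun i => by
    obtain ⟨⟨x, hx⟩⟩ := (hgc i).nonempty
    exact ⟨x, hx⟩
  have hdisj : ∀ i j, Disjoint (f i) (g j) := by
    intro i j
    rw [Set.disjoint_left]
    intro x hx hx'
    exact G.irrefl (hj x (hfs i hx) x (hgs j hx'))
  refine sm_of_family G (ι := Fin a ⊕ Fin b) (fun s => Sum.elim f g s) ?_ ?_ ?_ ?_ t
    (by simpa using ht)
  · rintro (i | i)
    · exact hf2 i
    · exact hg2 i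
  · rintro (i | i)
    · exact hfc i
    · exact hgc i
  · rintro (i | i) (j | j) hij
    · exact hfd i j (fun h => hij (by rw [h]))
    · exact hdisj i j
    · exact (hdisj j i).symm
    · exact hgd i j (fun h => hij (by rw [h]))
  · rintro (i | i) (j | j) hij
    · exact hfa i j (fun h => hij (by rw [h]))
    · obtain ⟨x, hx⟩ := hne i
      obtain ⟨y, hy⟩ := hne' j
      exact ⟨x, hx, y, hy, hj x (hfs i hx) y (hgs j hy)⟩
    · obtain ⟨x, hx⟩ := hne j
      obtain ⟨y, hy⟩ := hne' i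
      exact ⟨y, hy, x, hx, (hj x (hfs j hx) y (hgs i hy)).symm⟩
    · exact hga i j (fun h => hij (by rw [h]))

lemma sm_of_smIn {V : Type} (G : SimpleGraph V) (U : Set V) (t t' : ℕ) (h : SMIn G U t)
    (ht : t' ≤ t) : SM G t' := by
  obtain ⟨f, _, hf2, hfc, hfd, hfa⟩ := h
  exact sm_of_family G f hf2 hfc hfd hfa t' (by simpa using ht)

open Classical in
/-- Parity form of the Tutte–Berge condition. -/
lemma tb_parity {V : Type} (G : SimpleGraph V) (T : Finset V) (l : ℕ) (heven : Even (T.card + l))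
    (hcond : ∀ (A : Finset V) (F : Finset (Finset V)), A ⊆ T → (∀ O ∈ F, Odd O.card) →
      (∀ O ∈ F, ∀ O' ∈ F, O ≠ O' → Disjoint O O') → (∀ O ∈ F, O ⊆ T \ A) →
      (∀ O ∈ F, ∀ x ∈ O, ∀ y ∈ T, G.Adj x y → y ∈ O ∨ y ∈ A) → A.card + l + 2 ≤ F.card → False) :
    ∃ (U : Finset V) (m : V → V), U ⊆ T ∧ U.card ≤ l ∧
      ∀ x ∈ T \ U, m x ∈ T \ U ∧ m (m x) = x ∧ G.Adj x (m x) := by
  apply H168DD.tutte_berge G T l heven
  intro A F hAT hodd hdisj hsub hcl
  by_contra hcon
  push Not at hcon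
  have h1 : F.card = A.card + l + 1 := by
    by_contra hne
    exact hcond A F hAT hodd hdisj hsub hcl (by omega)
  set W := (T \ A) \ F.biUnion id with hW
  have hbu : F.biUnion id ⊆ T \ A := by
    intro x hx
    obtain ⟨O, hO, hxO⟩ := mem_biUnion.1 hx
    exact hsub O hO hxO
  have hWc : W.card + (F.biUnion id).card = (T \ A).card := card_sdiff_add_card_eq_card hbu
  have hTA : (T \ A).card + A.card = T.card := card_sdiff_add_card_eq_card hAT
  have hbc : (F.biUnion id).card = ∑ O ∈ F, O.card :=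
    card_biUnion (fun O hO O' hO' h => hdisj O hO O' hO' h)
  have hpar : (∑ O ∈ F, O.card) % 2 = F.card % 2 := by
    rw [Finset.sum_nat_mod]
    have : ∑ O ∈ F, O.card % 2 = ∑ O ∈ F, 1 :=
      Finset.sum_congr rfl (fun O hO => Nat.odd_iff.1 (hodd O hO))
    rw [this]; simp
  have hWodd : Odd W.card := by
    rw [Nat.odd_iff]; obtain ⟨r, hr⟩ := heven; omega
  have hWF : W ∉ F := by
    intro h
    obtain ⟨x, hx⟩ := card_pos.1 hWodd.pos
    have := (mem_sdiff.1 hx).2
    exact this (mem_biUnion.2 ⟨W, h, hx⟩)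
  have hWd : ∀ O ∈ F, Disjoint W O := by
    intro O hO
    rw [Finset.disjoint_left]
    intro x hx hxO
    exact (mem_sdiff.1 hx).2 (mem_biUnion.2 ⟨O, hO, hxO⟩)
  refine hcond A (insert W F) hAT ?_ ?_ ?_ ?_ ?_
  · intro O hO
    rcases mem_insert.1 hO with rfl | hO
    · exact hWodd
    · exact hodd O hO
  · intro O hO O' hO' hne
    rcases mem_insert.1 hO with rfl | hO <;> rcases mem_insert.1 hO' with rfl | hO'
    · exact absurd rfl hne
    · exact hWd _ hO'
    · exact (hWd _ hO).symm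
    · exact hdisj O hO O' hO' hne
  · intro O hO
    rcases mem_insert.1 hO with rfl | hO
    · exact sdiff_subset
    · exact hsub O hO
  · intro O hO x hx y hy hxy
    rcases mem_insert.1 hO with rfl | hO
    · by_contra hno
      push Not at hno
      have hyW : y ∈ F.biUnion id := by
        by_contra hyn
        exact hno.1 (mem_sdiff.2 ⟨mem_sdiff.2 ⟨hy, hno.2⟩, hyn⟩)
      obtain ⟨O, hO, hyO⟩ := mem_biUnion.1 hyW
      have hxT := mem_sdiff.1 (mem_sdiff.1 hx).1
      rcases hcl O hO y hyO x hxT.1 hxy.symm with h | h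
      · exact (mem_sdiff.1 hx).2 (mem_biUnion.2 ⟨O, hO, h⟩)
      · exact hxT.2 h
    · exact hcl O hO x hx y hy hxy
  · rw [card_insert_of_notMem hWF]; omega

open Classical in
lemma pairs_card {V : Type} (S : Finset V) (m : V → V)
    (hm : ∀ x ∈ S, m x ∈ S ∧ m (m x) = x ∧ m x ≠ x) :
    (S.image (fun x => ({x, m x} : Finset V))).card * 2 = S.card := by
  rw [Finset.card_eq_sum_card_image (fun x => ({x, m x} : Finset V)) S]
  rw [Finset.sum_const_nat (m := 2)]
  intro p hp
  obtain ⟨x, hx, rfl⟩ := mem_image.1 hp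
  obtain ⟨h1, h2, h3⟩ := hm x hx
  have : (S.filter (fun y => ({y, m y} : Finset V) = {x, m x})) = {x, m x} := by
    ext y
    simp only [mem_filter, mem_insert, mem_singleton]
    constructor
    · rintro ⟨hy, he⟩
      have : y ∈ ({x, m x} : Finset V) := by rw [← he]; simp
      simpa using this
    · rintro (rfl | rfl)
      · exact ⟨hx, rfl⟩
      · refine ⟨h1, ?_⟩
        rw [h2, Finset.pair_comm]
  rw [this, card_pair h3.symm]

open Classical in
/-- A matching and possibly one more vertex as branch sets. -/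
lemma minor_of_matching {V : Type} (G K : SimpleGraph V) (hKG : ∀ x y, K.Adj x y → G.Adj x y)
    (h2 : P2 K) (S Z : Finset V)
    (m : V → V) (hm : ∀ x ∈ S, m x ∈ S ∧ m (m x) = x ∧ K.Adj x (m x))
    (hZS : Disjoint Z S) (hZ : ∀ u ∈ Z, ∀ v ∈ Z, u ≠ v → G.Adj u v)
    (hZm : ∀ u ∈ Z, ∀ x ∈ S, G.Adj u x ∨ G.Adj u (m x)) (t : ℕ)
    (ht : 2 * t ≤ S.card + 2 * Z.card) : SM G t := by
  set P := S.image (fun x => ({x, m x} : Finset V)) with hP
  have hPc : P.card * 2 = S.card := pairs_card S m (fun x hx => ⟨(hm x hx).1, (hm x hx).2.1, (hm x hx).2.2.ne.symm⟩)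
  have hmem : ∀ x ∈ S, ∀ y ∈ S, ∀ z, z ∈ ({x, m x} : Finset V) → z ∈ ({y, m y} : Finset V) →
      ({x, m x} : Finset V) = {y, m y} := by
    intro x hx y hy z hz hz'
    have key : ∀ x ∈ S, z ∈ ({x, m x} : Finset V) → ({x, m x} : Finset V) = {z, m z} := by
      intro x hx hz
      simp only [mem_insert, mem_singleton] at hz
      rcases hz with rfl | rfl
      · rfl
      · rw [(hm x hx).2.1, Finset.pair_comm]
    rw [key x hx hz, key y hy hz']
  refine sm_of_family G (ι := {p : Finset V // p ∈ P} ⊕ {u : V // u ∈ Z})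
    (fun s => Sum.elim (fun p => ((p.1 : Finset V) : Set V)) (fun u => ({u.1} : Set V)) s) ?_ ?_ ?_ ?_ t ?_
  · rintro (⟨p, hp⟩ | ⟨u, hu⟩)
    · obtain ⟨x, hx, rfl⟩ := mem_image.1 hp
      simp only [Sum.elim_inl]
      rw [Set.encard_coe_eq_coe_finsetCard]
      exact_mod_cast (card_le_two : ({x, m x} : Finset V).card ≤ 2)
    · simp only [Sum.elim_inr, Set.encard_singleton]
      norm_num
  · rintro (⟨p, hp⟩ | ⟨u, hu⟩)
    · obtain ⟨x, hx, rfl⟩ := mem_image.1 hp
      have hpair : ((({x, m x} : Finset V)) : Set V) = {x, m x} := by ext; simp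
      simp only [Sum.elim_inl]
      rw [hpair]
      exact SimpleGraph.induce_pair_connected_of_adj (hKG _ _ (hm x hx).2.2)
    · exact connected_singleton G u
  · rintro (⟨p, hp⟩ | ⟨u, hu⟩) (⟨q, hq⟩ | ⟨v, hv⟩) hne
    · obtain ⟨x, hx, rfl⟩ := mem_image.1 hp
      obtain ⟨y, hy, rfl⟩ := mem_image.1 hq
      simp only [Sum.elim_inl, Finset.disjoint_coe]
      rw [Finset.disjoint_left]
      intro z hz hz'
      apply hne
      have := hmem x hx y hy z hz hz'
      simp only [this]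
    · obtain ⟨x, hx, rfl⟩ := mem_image.1 hp
      simp only [Sum.elim_inl, Sum.elim_inr, Set.disjoint_singleton_right, coe_insert, coe_singleton]
      rintro (rfl | h)
      · exact (Finset.disjoint_left.1 hZS hv) hx
      · rw [Set.mem_singleton_iff] at h
        exact (Finset.disjoint_left.1 hZS hv) (h ▸ (hm x hx).1)
    · obtain ⟨x, hx, rfl⟩ := mem_image.1 hq
      simp only [Sum.elim_inl, Sum.elim_inr, Set.disjoint_singleton_left, coe_insert, coe_singleton]
      rintro (rfl | h)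
      · exact (Finset.disjoint_left.1 hZS hu) hx
      · rw [Set.mem_singleton_iff] at h
        exact (Finset.disjoint_left.1 hZS hu) (h ▸ (hm x hx).1)
    · simp only [Sum.elim_inr, Set.disjoint_singleton]
      intro h; apply hne; subst h; rfl
  · rintro (⟨p, hp⟩ | ⟨u, hu⟩) (⟨q, hq⟩ | ⟨v, hv⟩) hne
    · obtain ⟨x, hx, rfl⟩ := mem_image.1 hp
      obtain ⟨y, hy, rfl⟩ := mem_image.1 hq
      simp only [Sum.elim_inl]
      rcases h2 x (m x) y (m y) (hm x hx).2.2 (hm y hy).2.2 with h | h | h | h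
      · exact ⟨x, by simp, y, by simp, hKG _ _ h⟩
      · exact ⟨x, by simp, m y, by simp, hKG _ _ h⟩
      · exact ⟨m x, by simp, y, by simp, hKG _ _ h⟩
      · exact ⟨m x, by simp, m y, by simp, hKG _ _ h⟩
    · obtain ⟨x, hx, rfl⟩ := mem_image.1 hp
      simp only [Sum.elim_inl, Sum.elim_inr]
      rcases hZm v hv x hx with h | h
      · exact ⟨x, by simp, v, rfl, h.symm⟩
      · exact ⟨m x, by simp, v, rfl, h.symm⟩
    · obtain ⟨x, hx, rfl⟩ := mem_image.1 hq
      simp only [Sum.elim_inl, Sum.elim_inr]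
      rcases hZm u hu x hx with h | h
      · exact ⟨u, rfl, x, by simp, h⟩
      · exact ⟨u, rfl, m x, by simp, h⟩
    · simp only [Sum.elim_inr]
      exact ⟨u, rfl, v, rfl, hZ u hu v hv (fun h => hne (by subst h; rfl))⟩
  · rw [Fintype.card_sum, Fintype.card_coe, Fintype.card_coe]
    omega

lemma minor_of_clique {V : Type} (G : SimpleGraph V) (Z : Finset V)
    (hZ : ∀ u ∈ Z, ∀ v ∈ Z, u ≠ v → G.Adj u v) (t : ℕ) (ht : t ≤ Z.card) : SM G t := by
  refine sm_of_family G (ι := {u : V // u ∈ Z}) (fun u => ({u.1} : Set V)) ?_ ?_ ?_ ?_ t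
    (by rw [Fintype.card_coe]; exact ht)
  · intro u
    rw [Set.encard_singleton]
    norm_num
  · intro u; exact connected_singleton G u.1
  · intro u v huv
    rw [Set.disjoint_singleton]
    exact fun h => huv (Subtype.ext h)
  · intro u v huv
    exact ⟨u.1, rfl, v.1, rfl, hZ _ u.2 _ v.2 (fun h => huv (Subtype.ext h))⟩

open Classical in
/-- Pairs indexed by a type and a clique as branch sets. -/
lemma minor_of_pairs {V : Type} (G K : SimpleGraph V) (hKG : ∀ x y, K.Adj x y → G.Adj x y)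
    (h2 : P2 K) {ι : Type} [Fintype ι] (p q : ι → V) (hp : Function.Injective p)
    (hq : Function.Injective q) (hpq : ∀ i j, p i ≠ q j) (hK : ∀ i, K.Adj (p i) (q i))
    (Z : Finset V) (hZ : ∀ u ∈ Z, ∀ v ∈ Z, u ≠ v → G.Adj u v)
    (hZp : ∀ i, p i ∉ Z) (hZq : ∀ i, q i ∉ Z)
    (hZa : ∀ u ∈ Z, ∀ i, G.Adj u (p i) ∨ G.Adj u (q i)) (t : ℕ)
    (ht : t ≤ Fintype.card ι + Z.card) : SM G t := by
  refine sm_of_family G (ι := ι ⊕ {u : V // u ∈ Z})
    (fun s => Sum.elim (fun i => ({p i, q i} : Set V)) (fun u => ({u.1} : Set V)) s) ?_ ?_ ?_ ?_ t ?_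
  · rintro (i | ⟨u, hu⟩)
    · simp only [Sum.elim_inl]
      refine (Set.encard_insert_le _ _).trans ?_
      rw [Set.encard_singleton]
      norm_num
    · simp only [Sum.elim_inr, Set.encard_singleton]
      norm_num
  · rintro (i | ⟨u, hu⟩)
    · exact SimpleGraph.induce_pair_connected_of_adj (hKG _ _ (hK i))
    · exact connected_singleton G u
  · rintro (i | ⟨u, hu⟩) (j | ⟨v, hv⟩) hne
    · have hij : i ≠ j := fun h => hne (by rw [h])
      simp only [Sum.elim_inl, Set.disjoint_insert_left, Set.mem_insert_iff, Set.mem_singleton_iff,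
        Set.disjoint_singleton_left, not_or]
      exact ⟨⟨fun h => hij (hp h), hpq i j⟩, fun h => hpq j i h.symm, fun h => hij (hq h)⟩
    · simp only [Sum.elim_inl, Sum.elim_inr, Set.disjoint_singleton_right, Set.mem_insert_iff,
        Set.mem_singleton_iff, not_or]
      exact ⟨fun h => hZp i (h ▸ hv), fun h => hZq i (h ▸ hv)⟩
    · simp only [Sum.elim_inl, Sum.elim_inr, Set.disjoint_singleton_left, Set.mem_insert_iff,
        Set.mem_singleton_iff, not_or]
      exact ⟨fun h => hZp j (h ▸ hu), fun h => hZq j (h ▸ hu)⟩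
    · simp only [Sum.elim_inr, Set.disjoint_singleton]
      intro h; apply hne; subst h; rfl
  · rintro (i | ⟨u, hu⟩) (j | ⟨v, hv⟩) hne
    · simp only [Sum.elim_inl]
      rcases h2 _ _ _ _ (hK i) (hK j) with h | h | h | h
      · exact ⟨p i, by simp, p j, by simp, hKG _ _ h⟩
      · exact ⟨p i, by simp, q j, by simp, hKG _ _ h⟩
      · exact ⟨q i, by simp, p j, by simp, hKG _ _ h⟩
      · exact ⟨q i, by simp, q j, by simp, hKG _ _ h⟩
    · simp only [Sum.elim_inl, Sum.elim_inr]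
      rcases hZa v hv i with h | h
      · exact ⟨p i, by simp, v, rfl, h.symm⟩
      · exact ⟨q i, by simp, v, rfl, h.symm⟩
    · simp only [Sum.elim_inl, Sum.elim_inr]
      rcases hZa u hu j with h | h
      · exact ⟨u, rfl, p j, by simp, h⟩
      · exact ⟨u, rfl, q j, by simp, h⟩
    · simp only [Sum.elim_inr]
      exact ⟨u, rfl, v, rfl, hZ u hu v hv (fun h => hne (by subst h; rfl))⟩
  · rw [Fintype.card_sum, Fintype.card_coe]
    omega

end N684.HI
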