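import Pool.Agent.N684.HI.A

/-! Hadwiger's conjecture for clique inflations of `2K₂`-free graphs: set-up and the colouring
bound. -/

set_option autoImplicit false

namespace N684.HI

open Finset TH481.DM

open Classical in
/-- the class of `w` -/
noncomputable def bag {V W : Type} [Fintype V] (π : V → W) (w : V) : Finset V :=
  univ.filter (fun u => π u = π w)

open Classical in
/-- the neighbours of `w` in `K` -/
noncomputable def nb {V : Type} [Fintype V] (K : SimpleGraph V) (w : V) : Finset V :=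
  univ.filter (fun u => K.Adj w u)

lemma mem_bag {V W : Type} [Fintype V] (π : V → W) (u w : V) : u ∈ bag π w ↔ π u = π w := by
  simp [bag]

lemma mem_nb {V : Type} [Fintype V] (K : SimpleGraph V) (u w : V) : u ∈ nb K w ↔ K.Adj w u := by
  simp [nb]

/-- `G` arises from the `2K₂`-free graph `K`, in which the classes of `π` consist of twins, by
making every class of `π` a clique. -/
structure Infl {V W : Type} (G K : SimpleGraph V) (π : V → W) : Prop where
  p2 : P2 K
  tw : ∀ x y z, π x = π y → K.Adj x z → K.Adj y z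
  adj : ∀ x y, G.Adj x y ↔ x ≠ y ∧ (π x = π y ∨ K.Adj x y)

lemma Infl.ne {V W : Type} {G K : SimpleGraph V} {π : V → W} (h : Infl G K π) {x y : V}
    (hxy : K.Adj x y) : π x ≠ π y := fun he => K.irrefl (h.tw x y y he hxy)

lemma Infl.sub {V W : Type} {G K : SimpleGraph V} {π : V → W} (h : Infl G K π) :
    ∀ x y, K.Adj x y → G.Adj x y := fun x y hxy => (h.adj x y).2 ⟨hxy.ne, Or.inr hxy⟩

open Classical in
/-- the rank of `w` in `S` for a fixed order -/
noncomputable def rk {V : Type} [Fintype V] (S : Finset V) (w : V) : ℕ :=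
  (S.filter (fun u => Fintype.equivFin V u < Fintype.equivFin V w)).card

lemma rk_lt {V : Type} [Fintype V] (S : Finset V) (w : V) (hw : w ∈ S) : rk S w < S.card := by
  classical
  unfold rk
  apply card_lt_card
  rw [filter_ssubset]
  exact ⟨w, hw, by simp⟩

lemma rk_inj {V : Type} [Fintype V] (S : Finset V) (u w : V) (hu : u ∈ S) (hw : w ∈ S)
    (h : rk S u = rk S w) : u = w := by
  classical
  have key : ∀ a b : V, a ∈ S → Fintype.equivFin V a < Fintype.equivFin V b → rk S a < rk S b := by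
    intro a b ha hab
    unfold rk
    apply card_lt_card
    rw [ssubset_iff_of_subset]
    · exact ⟨a, mem_filter.2 ⟨ha, hab⟩, fun h => lt_irrefl _ (mem_filter.1 h).2⟩
    · intro c hc
      obtain ⟨h1, h2⟩ := mem_filter.1 hc
      exact mem_filter.2 ⟨h1, h2.trans hab⟩
  rcases lt_trichotomy (Fintype.equivFin V u) (Fintype.equivFin V w) with h' | h' | h'
  · have := key u w hu h'; omega
  · exact (Fintype.equivFin V).injective h'
  · have := key w u hw h'; omega

/-- a colouring from a partition -/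
lemma col_of_parts {V W : Type} [Fintype V] (G : SimpleGraph V) (π : V → W) (x : ℕ)
    (hx : ∀ w, (bag π w).card ≤ x) (X M AN Z CN : Finset V)
    (hcov : ∀ w, w ∈ M ∨ w ∈ X ∨ w ∈ AN ∨ w ∈ Z ∨ w ∈ CN)
    (hXM : ∀ a ∈ X, ∀ b ∈ M, ¬ G.Adj a b) (hXc : X.card ≤ M.card)
    (hZ : ∀ a ∈ Z, ∀ b ∈ Z, G.Adj a b → π a = π b)
    (hZC : ∀ a ∈ Z, ∀ b ∈ CN, ¬ G.Adj a b)
    (m : ℕ) (hm1 : M.card + AN.card + x ≤ m) (hm2 : M.card + AN.card + CN.card ≤ m) :
    G.Colorable m := by
  have hex : ∀ w, ∃ c : ℕ, (w ∈ M ∧ c = rk M w) ∨ (w ∈ X ∧ c = rk X w) ∨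
      (w ∈ AN ∧ c = M.card + rk AN w) ∨ (w ∈ Z ∧ c = M.card + AN.card + rk (bag π w) w) ∨
      (w ∈ CN ∧ c = M.card + AN.card + rk CN w) := by
    intro w
    rcases hcov w with h | h | h | h | h
    · exact ⟨_, Or.inl ⟨h, rfl⟩⟩
    · exact ⟨_, Or.inr (Or.inl ⟨h, rfl⟩)⟩
    · exact ⟨_, Or.inr (Or.inr (Or.inl ⟨h, rfl⟩))⟩
    · exact ⟨_, Or.inr (Or.inr (Or.inr (Or.inl ⟨h, rfl⟩)))⟩
    · exact ⟨_, Or.inr (Or.inr (Or.inr (Or.inr ⟨h, rfl⟩)))⟩
  choose c hc using hex
  rw [colorable_iff]
  have hbag : ∀ w, rk (bag π w) w < (bag π w).card := fun w => rk_lt _ _ ((mem_bag π w w).2 rfl)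
  refine ⟨c, ?_, ?_⟩
  · intro w _
    rcases hc w with ⟨h, e⟩ | ⟨h, e⟩ | ⟨h, e⟩ | ⟨h, e⟩ | ⟨h, e⟩
    · have := rk_lt _ _ h; omega
    · have := rk_lt _ _ h; omega
    · have := rk_lt _ _ h; omega
    · have := hbag w; have := hx w; omega
    · have := rk_lt _ _ h; omega
  · intro u _ w _ huw hcc
    rcases hc u with ⟨h, e⟩ | ⟨h, e⟩ | ⟨h, e⟩ | ⟨h, e⟩ | ⟨h, e⟩ <;>
    rcases hc w with ⟨h', e'⟩ | ⟨h', e'⟩ | ⟨h', e'⟩ | ⟨h', e'⟩ | ⟨h', e'⟩
    · exact huw.ne (rk_inj M u w h h' (by omega))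
    · exact hXM w h' u h huw.symm
    · have := rk_lt _ _ h; omega
    · have := rk_lt _ _ h; omega
    · have := rk_lt _ _ h; omega
    · exact hXM u h w h' huw
    · exact huw.ne (rk_inj X u w h h' (by omega))
    · have := rk_lt _ _ h; omega
    · have := rk_lt _ _ h; omega
    · have := rk_lt _ _ h; omega
    · have := rk_lt _ _ h'; omega
    · have := rk_lt _ _ h'; omega
    · exact huw.ne (rk_inj AN u w h h' (by omega))
    · have := rk_lt _ _ h; omega
    · have := rk_lt _ _ h; omega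
    · have := rk_lt _ _ h'; omega
    · have := rk_lt _ _ h'; omega
    · have := rk_lt _ _ h'; omega
    · have hb : bag π u = bag π w := by
        ext y; rw [mem_bag, mem_bag, hZ u h w h' huw]
      rw [hb] at e
      exact huw.ne (rk_inj (bag π w) u w ((mem_bag π u w).2 (hZ u h w h' huw))
        ((mem_bag π w w).2 rfl) (by omega))
    · exact hZC u h w h' huw
    · have := rk_lt _ _ h'; omega
    · have := rk_lt _ _ h'; omega
    · have := rk_lt _ _ h'; omega
    · exact hZC w h' u h huw.symm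
    · exact huw.ne (rk_inj CN u w h h' (by omega))

/-- the edges of `K` with an end in the neighbourhood of `v` -/
def star2 {V : Type} (K : SimpleGraph V) (v : V) : SimpleGraph V where
  Adj x y := K.Adj x y ∧ (K.Adj v x ∨ K.Adj v y)
  symm := ⟨fun _ _ h => ⟨h.1.symm, h.2.symm⟩⟩
  loopless := ⟨fun _ h => K.irrefl h.1⟩

/-- The situation in the last case: a barrier `A` for the matching, with many isolated vertices. -/
structure Bar2 {V W : Type} [Fintype V] (G K : SimpleGraph V) (π : V → W) (k : ℕ) (v : V)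
    (A Z : Finset V) : Prop where
  infl : Infl G K π
  deg : ∀ w, k ≤ (bag π w).card + (nb K w).card
  max : ∀ w, (bag π w).card ≤ (bag π v).card
  avoid : ∀ a ∈ A, π a ≠ π v
  small : A.card + (bag π v).card + 1 ≤ k
  iso : ∀ z, z ∈ Z ↔ π z ≠ π v ∧ z ∉ A ∧ ∀ y, π y ≠ π v → y ∉ A → ¬ (star2 K v).Adj z y
  many : A.card + Fintype.card V + (bag π v).card + 1 ≤ Z.card + 2 * k
  inN : ∃ z ∈ Z, K.Adj v z

section
variable {V W : Type} [Fintype V] {G K : SimpleGraph V} {π : V → W} {k : ℕ} {v : V}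
  {A Z : Finset V}

lemma Bar2.f1 (h : Bar2 G K π k v A Z) {y y' : V} (hy : π y ≠ π v) (hyA : y ∉ A)
    (hyN : ¬ K.Adj v y) (hy' : π y' ≠ π v) (hyA' : y' ∉ A) (hyN' : ¬ K.Adj v y') :
    ¬ K.Adj y y' := by
  intro hyy
  obtain ⟨z, hz, hvz⟩ := h.inN
  obtain ⟨_, _, h3⟩ := (h.iso z).1 hz
  rcases h.infl.p2 v z y y' hvz hyy with h' | h' | h' | h'
  · exact hyN h'
  · exact hyN' h'
  · exact h3 y hy hyA ⟨h', Or.inl hvz⟩
  · exact h3 y' hy' hyA' ⟨h', Or.inl hvz⟩

lemma Bar2.f2 (h : Bar2 G K π k v A Z) : ∀ z ∈ Z, K.Adj v z := by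
  intro y hy
  by_contra hyN
  obtain ⟨h1, h2, h3⟩ := (h.iso y).1 hy
  have hsub : nb K y ⊆ A := by
    intro w hw
    rw [mem_nb] at hw
    by_contra hwA
    have hwX : π w ≠ π v := fun e => hyN (h.infl.tw w v y e hw.symm)
    by_cases hwN : K.Adj v w
    · exact h3 w hwX hwA ⟨hw, Or.inr hwN⟩
    · exact h.f1 h1 h2 hyN hwX hwA hwN hw
  have e1 := card_le_card hsub
  have e2 := h.deg y
  have e3 := h.max y
  have e4 := h.small
  omega

/-- two elements of `Z` are not joined in `K` -/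
lemma Bar2.f3 (h : Bar2 G K π k v A Z) : ∀ z ∈ Z, ∀ y, π y ≠ π v → y ∉ A → ¬ K.Adj z y := by
  intro z hz y hy hyA hzy
  exact ((h.iso z).1 hz).2.2 y hy hyA ⟨hzy, Or.inl (h.f2 z hz)⟩

open Classical in
/-- the number of vertices not adjacent to the largest class is at most the size of this class -/
lemma Bar2.small_M (h : Bar2 G K π k v A Z) (hcol : ¬ G.Colorable (k - 1)) :
    (A.filter (fun w => ¬ K.Adj v w)).card +
      ((((univ \ bag π v) \ A) \ Z).filter (fun w => ¬ K.Adj v w)).card ≤ (bag π v).card := by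
  by_contra hcon
  push Not at hcon
  set X := bag π v with hX
  set R := ((univ \ X) \ A) \ Z with hR
  set CM := R.filter (fun w => ¬ K.Adj v w) with hCM
  set CN := R.filter (fun w => K.Adj v w) with hCN
  set AM := A.filter (fun w => ¬ K.Adj v w) with hAM
  set AN := A.filter (fun w => K.Adj v w) with hAN
  have memR : ∀ w, w ∈ R ↔ π w ≠ π v ∧ w ∉ A ∧ w ∉ Z := by
    intro w
    simp only [hR, hX, mem_sdiff, mem_univ, true_and, mem_bag]
    tauto
  have c1 : (univ \ X).card + X.card = Fintype.card V := by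
    rw [card_sdiff_add_card_eq_card (subset_univ _), card_univ]
  have c2 : ((univ \ X) \ A).card + A.card = (univ \ X).card := by
    apply card_sdiff_add_card_eq_card
    intro a ha
    rw [mem_sdiff, mem_bag]
    exact ⟨mem_univ _, h.avoid a ha⟩
  have c3 : R.card + Z.card = ((univ \ X) \ A).card := by
    apply card_sdiff_add_card_eq_card
    intro z hz
    obtain ⟨h1, h2, _⟩ := (h.iso z).1 hz
    rw [mem_sdiff, mem_sdiff, mem_bag]
    exact ⟨⟨mem_univ _, h1⟩, h2⟩
  have c4 : CN.card + CM.card = R.card := card_filter_add_card_filter_not _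
  have c5 : AN.card + AM.card = A.card := card_filter_add_card_filter_not _
  have hsm := h.small
  have hmany := h.many
  rw [← hX] at hsm hmany
  have hdisj : Disjoint AM CM := by
    rw [Finset.disjoint_left]
    intro w hw hw'
    exact ((memR w).1 (mem_filter.1 hw').1).2.1 (mem_filter.1 hw).1
  have c6 : (AM ∪ CM).card = AM.card + CM.card := card_union_of_disjoint hdisj
  -- `d ≤ x`
  obtain ⟨z, hz, hvz⟩ := h.inN
  have hzN : nb K z ⊆ X ∪ A := by
    intro w hw
    rw [mem_nb] at hw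
    rw [mem_union, mem_bag]
    by_contra hno
    push Not at hno
    exact h.f3 z hz w hno.1 hno.2 hw
  have c7 := (card_le_card hzN).trans (card_union_le _ _)
  have c8 := h.deg z
  have c9 := h.max z
  rw [← hX] at c9
  -- bound for CM
  have c10 : CM.card + (A.card + X.card) + 1 ≤ k := by
    rcases CM.eq_empty_or_nonempty with h0 | ⟨y, hy⟩
    · rw [h0, card_empty]; omega
    · obtain ⟨hyR, hyv⟩ := mem_filter.1 hy
      obtain ⟨hy1, hy2, hy3⟩ := (memR y).1 hyR
      have hyN : nb K y ⊆ A ∪ CN := by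
        intro w hw
        rw [mem_nb] at hw
        rw [mem_union]
        by_contra hno
        rw [not_or] at hno
        have hwX : π w ≠ π v := fun e => hyv (h.infl.tw w v y e hw.symm)
        by_cases hwN : K.Adj v w
        · apply hno.2
          refine mem_filter.2 ⟨(memR w).2 ⟨hwX, hno.1, ?_⟩, hwN⟩
          intro hwZ
          exact h.f3 w hwZ y hy1 hy2 hw.symm
        · exact h.f1 hy1 hy2 hyv hwX hno.1 hwN hw
      have d1 := (card_le_card hyN).trans (card_union_le _ _)
      have d2 := h.deg y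
      have d3 := h.max y
      rw [← hX] at d3
      omega
  apply hcol
  refine col_of_parts G π X.card h.max X (AM ∪ CM) AN Z CN ?_ ?_ (by omega) ?_ ?_ (k - 1) ?_ ?_
  · intro w
    by_cases hwX : π w = π v
    · right; left; exact (mem_bag π w v).2 hwX
    by_cases hwA : w ∈ A
    · by_cases hwN : K.Adj v w
      · right; right; left; exact mem_filter.2 ⟨hwA, hwN⟩
      · left; exact mem_union_left _ (mem_filter.2 ⟨hwA, hwN⟩)
    · by_cases hwZ : w ∈ Z
      · right; right; right; left; exact hwZ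
      · by_cases hwN : K.Adj v w
        · right; right; right; right; exact mem_filter.2 ⟨(memR w).2 ⟨hwX, hwA, hwZ⟩, hwN⟩
        · left; exact mem_union_right _ (mem_filter.2 ⟨(memR w).2 ⟨hwX, hwA, hwZ⟩, hwN⟩)
  · intro a ha b hb hab
    have hb' : π b ≠ π v ∧ ¬ K.Adj v b := by
      rcases mem_union.1 hb with hb | hb
      · exact ⟨h.avoid b (mem_filter.1 hb).1, (mem_filter.1 hb).2⟩
      · exact ⟨((memR b).1 (mem_filter.1 hb).1).1, (mem_filter.1 hb).2⟩
    have ha' := (mem_bag π a v).1 ha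
    rcases ((h.infl.adj a b).1 hab).2 with e | e
    · exact hb'.1 (e.symm.trans ha')
    · exact hb'.2 (h.infl.tw a v b ha' e)
  · intro a ha b hb hab
    rcases ((h.infl.adj a b).1 hab).2 with e | e
    · exact e
    · obtain ⟨h1, h2, _⟩ := (h.iso b).1 hb
      exact absurd e (h.f3 a ha b h1 h2)
  · intro a ha b hb hab
    obtain ⟨hbR, hbN⟩ := mem_filter.1 hb
    obtain ⟨hb1, hb2, hb3⟩ := (memR b).1 hbR
    rcases ((h.infl.adj a b).1 hab).2 with e | e
    · apply hb3
      rw [h.iso]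
      refine ⟨hb1, hb2, ?_⟩
      intro y hy hyA hby
      exact h.f3 a ha y hy hyA (h.infl.tw b a y e.symm hby.1)
    · exact h.f3 a ha b hb1 hb2 e
  · omega
  · omega

end

end N684.HI
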