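import Pool.Agent.N684.HI.B

/-! Hadwiger's conjecture for clique inflations of `2K₂`-free graphs: the Hall argument. -/

set_option autoImplicit false

namespace N684.HI

open Finset TH481.DM

section
variable {V W : Type} [Fintype V] {G K : SimpleGraph V} {π : V → W} {k : ℕ} {v : V}
  {A Z : Finset V}

open Classical in
theorem Bar2.minor (h : Bar2 G K π k v A Z) (hcol : ¬ G.Colorable (k - 1))
    (hn : 2 * k ≤ Fintype.card V + 1) : SM G k := by
  have hZne : Z.Nonempty := by
    obtain ⟨z, hz, _⟩ := h.inN
    exact ⟨z, hz⟩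
  obtain ⟨z, hz, hzmin⟩ := exists_min_image Z (fun z => (A.filter (fun a => K.Adj z a)).card) hZne
  have hM := h.small_M hcol
  have hmany := h.many
  have hsm := h.small
  set X := bag π v with hX
  set Y := bag π z with hY
  set Az := A.filter (fun a => K.Adj z a) with hAz
  set AM := A.filter (fun w => ¬ K.Adj v w) with hAM
  set CM := (((univ \ X) \ A) \ Z).filter (fun w => ¬ K.Adj v w) with hCM
  have hvz := h.f2 z hz
  obtain ⟨hzv, hzA, _⟩ := (h.iso z).1 hz
  have hYX : Y.card ≤ X.card := h.max z
  have hzN : nb K z ⊆ X ∪ Az := by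
    intro w hw
    rw [mem_nb] at hw
    rw [mem_union, mem_bag]
    by_cases hwX : π w = π v
    · exact Or.inl hwX
    · right
      refine mem_filter.2 ⟨?_, hw⟩
      by_contra hwA
      exact h.f3 z hz w hwX hwA hw
  have hk1 : k ≤ X.card + Y.card + Az.card := by
    have e1 := (card_le_card hzN).trans (card_union_le _ _)
    have e2 := h.deg z
    rw [← hY] at e2
    omega
  obtain ⟨t, ht⟩ : ∃ t, X.card + Y.card + Az.card = k + t := ⟨_, (Nat.add_sub_of_le hk1).symm⟩
  set U := (univ : Finset V).filter (fun w => π w ≠ π v ∧ π w ≠ π z ∧ w ∉ Az) with hU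
  let τ : Az → Finset (V ⊕ Fin t) := fun a =>
    (U.filter (fun u => (star2 K v).Adj a.1 u)).image Sum.inl ∪ univ.image Sum.inr
  have memAz : ∀ a, a ∈ Az ↔ a ∈ A ∧ K.Adj z a := fun a => by rw [hAz, mem_filter]
  have hall : ∀ S : Finset Az, S.card ≤ (S.biUnion τ).card := by
    intro S
    rcases S.eq_empty_or_nonempty with rfl | hSne
    · simp
    set NS := U.filter (fun u => ∃ a ∈ S, (star2 K v).Adj a.1 u) with hNS
    have hsub : NS.image Sum.inl ∪ univ.image Sum.inr ⊆ S.biUnion τ := by
      intro y hy
      obtain ⟨a0, ha0⟩ := hSne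
      rcases mem_union.1 hy with hy | hy
      · obtain ⟨u, hu, rfl⟩ := mem_image.1 hy
        obtain ⟨huU, a, ha, hau⟩ := mem_filter.1 hu
        exact mem_biUnion.2 ⟨a, ha, mem_union_left _ (mem_image_of_mem _ (mem_filter.2 ⟨huU, hau⟩))⟩
      · exact mem_biUnion.2 ⟨a0, ha0, mem_union_right _ hy⟩
    have hcardu : (NS.image Sum.inl ∪ (univ : Finset (Fin t)).image Sum.inr : Finset (V ⊕ Fin t)).card
        = NS.card + t := by
      rw [card_union_of_disjoint, card_image_of_injective _ Sum.inl_injective,
        card_image_of_injective _ Sum.inr_injective, card_univ, Fintype.card_fin]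
      rw [Finset.disjoint_left]
      intro y hy hy'
      obtain ⟨u, _, rfl⟩ := mem_image.1 hy
      obtain ⟨w, _, hw⟩ := mem_image.1 hy'
      cases hw
    have hle := card_le_card hsub
    rw [hcardu] at hle
    refine le_trans ?_ hle
    set S' := S.image Subtype.val with hS'
    have hS'c : S'.card = S.card := card_image_of_injective _ Subtype.val_injective
    have hS'Az : S' ⊆ Az := by
      intro a ha
      obtain ⟨b, _, rfl⟩ := mem_image.1 ha
      exact b.2
    have hAzA : Az ⊆ A := filter_subset _ _
    by_cases hSN : ∃ a ∈ S, K.Adj v a.1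
    · obtain ⟨a0, ha0, hva0⟩ := hSN
      by_cases hall' : ∀ z' ∈ Z, ∃ a ∈ S, K.Adj a.1 z'
      · have hsubN : Z \ Y ⊆ NS := by
          intro z' hz'
          obtain ⟨hz'Z, hz'Y⟩ := mem_sdiff.1 hz'
          rw [mem_bag] at hz'Y
          obtain ⟨hz'v, hz'A, _⟩ := (h.iso z').1 hz'Z
          obtain ⟨a, ha, haz⟩ := hall' z' hz'Z
          refine mem_filter.2 ⟨mem_filter.2 ⟨mem_univ _, hz'v, hz'Y, fun hc => hz'A (hAzA hc)⟩,
            a, ha, haz, Or.inr (h.f2 z' hz'Z)⟩
        have e1 := card_le_card hsubN
        have e2 := le_card_sdiff Y Z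
        have e3 := card_le_card (hS'Az.trans hAzA)
        omega
      · push Not at hall'
        obtain ⟨z', hz', hno⟩ := hall'
        obtain ⟨hz'v, hz'A, _⟩ := (h.iso z').1 hz'
        have hmin := hzmin z' hz'
        set Az' := A.filter (fun a => K.Adj z' a) with hAz'
        have hzz' : ¬ K.Adj z z' := h.f3 z hz z' hz'v hz'A
        have hSd : S' ⊆ Az \ Az' := by
          intro a ha
          refine mem_sdiff.2 ⟨hS'Az ha, ?_⟩
          intro hc
          obtain ⟨b, hb, rfl⟩ := mem_image.1 ha
          exact hno b hb (mem_filter.1 hc).2.symm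
        have hsubN : Az' \ Az ⊆ NS := by
          intro b hb
          obtain ⟨hb1, hb2⟩ := mem_sdiff.1 hb
          obtain ⟨hbA, hzb⟩ := mem_filter.1 hb1
          have hnzb : ¬ K.Adj z b := fun hc => hb2 ((memAz b).2 ⟨hbA, hc⟩)
          have hbz : π b ≠ π z := fun e => hzz' (h.infl.tw b z z' e hzb.symm)
          refine mem_filter.2 ⟨mem_filter.2 ⟨mem_univ _, h.avoid b hbA, hbz, hb2⟩, a0, ha0, ?_,
            Or.inl hva0⟩
          rcases h.infl.p2 a0.1 z b z' ((memAz _).1 a0.2).2.symm hzb.symm with e | e | e | e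
          · exact e
          · exact absurd e (hno a0 ha0)
          · exact absurd e hnzb
          · exact absurd e hzz'
        have e1 := card_le_card hsubN
        have e2 := card_le_card hSd
        have e3 := card_sdiff_add_card_inter Az Az'
        have e4 := card_sdiff_add_card_inter Az' Az
        rw [inter_comm Az' Az] at e4
        have hmin' : Az.card ≤ Az'.card := hmin
        omega
    · push Not at hSN
      obtain ⟨a, ha⟩ := hSne
      have hav := hSN a ha
      have haX := h.avoid a.1 (hAzA a.2)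
      have hcover : bag π a.1 ∪ nb K a.1 ⊆ Y ∪ (NS ∪ (Az ∪ ((AM \ Az) ∪ CM))) := by
        intro w hw
        simp only [mem_union]
        by_cases hwY : w ∈ Y
        · exact Or.inl hwY
        right
        by_cases hwAz : w ∈ Az
        · exact Or.inr (Or.inl hwAz)
        have hwX : π w ≠ π v := by
          intro e
          rcases mem_union.1 hw with hw | hw
          · rw [mem_bag] at hw; exact haX (hw.symm.trans e)
          · rw [mem_nb] at hw
            exact hav (h.infl.tw w v a.1 e hw.symm)
        have hwz : π w ≠ π z := fun e => hwY ((mem_bag π w z).2 e)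
        by_cases hwN : K.Adj v w
        · left
          have haw : K.Adj a.1 w := by
            rcases mem_union.1 hw with hw | hw
            · rw [mem_bag] at hw
              exact absurd (h.infl.tw w a.1 v hw hwN.symm).symm hav
            · exact (mem_nb _ _ _).1 hw
          exact mem_filter.2 ⟨mem_filter.2 ⟨mem_univ _, hwX, hwz, hwAz⟩, a, ha, haw, Or.inr hwN⟩
        · right; right
          by_cases hwA : w ∈ A
          · left
            exact mem_sdiff.2 ⟨mem_filter.2 ⟨hwA, hwN⟩, hwAz⟩
          · right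
            refine mem_filter.2 ⟨mem_sdiff.2 ⟨mem_sdiff.2 ⟨mem_sdiff.2 ⟨mem_univ _, ?_⟩, hwA⟩, ?_⟩, hwN⟩
            · rw [mem_bag]; exact hwX
            · intro hwZ; exact hwN (h.f2 w hwZ)
      have hdj : Disjoint (bag π a.1) (nb K a.1) := by
        rw [Finset.disjoint_left]
        intro w hw hw'
        rw [mem_bag] at hw
        rw [mem_nb] at hw'
        exact h.infl.ne hw' hw.symm
      have e1 := card_le_card hcover
      rw [card_union_of_disjoint hdj] at e1
      have e2 := h.deg a.1
      have e3 := card_union_le Y (NS ∪ (Az ∪ ((AM \ Az) ∪ CM)))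
      have e4 := card_union_le NS (Az ∪ ((AM \ Az) ∪ CM))
      have e5 := card_union_le Az ((AM \ Az) ∪ CM)
      have e6 := card_union_le (AM \ Az) CM
      have hSA : S' ⊆ AM ∩ Az := by
        intro b hb
        refine mem_inter.2 ⟨mem_filter.2 ⟨hAzA (hS'Az hb), ?_⟩, hS'Az hb⟩
        obtain ⟨b', hb', rfl⟩ := mem_image.1 hb
        exact hSN b' hb'
      have e7 := card_le_card hSA
      have e8 := card_sdiff_add_card_inter AM Az
      omega
  obtain ⟨f, hfinj, hfτ⟩ := (Finset.all_card_le_biUnion_card_iff_exists_injective τ).1 hall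
  set L := (univ : Finset Az).filter (fun a => ∃ u, f a = Sum.inl u) with hL
  have hLc : Az.card ≤ L.card + t := by
    have e1 : L.card + ((univ : Finset Az).filter (fun a => ¬ ∃ u, f a = Sum.inl u)).card =
        (univ : Finset Az).card := card_filter_add_card_filter_not _
    rw [card_univ, Fintype.card_coe] at e1
    have e2 : ((univ : Finset Az).filter (fun a => ¬ ∃ u, f a = Sum.inl u)).card ≤ t := by
      have e3 : (((univ : Finset Az).filter (fun a => ¬ ∃ u, f a = Sum.inl u)).image f) ⊆
          (univ : Finset (Fin t)).image Sum.inr := by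
        intro y hy
        obtain ⟨a, ha, rfl⟩ := mem_image.1 hy
        rcases hfa : f a with u | u
        · exact absurd ⟨u, hfa⟩ (mem_filter.1 ha).2
        · exact mem_image_of_mem _ (mem_univ _)
      have e4 := card_le_card e3
      rw [card_image_of_injective _ hfinj] at e4
      refine e4.trans (card_image_le.trans ?_)
      rw [card_univ, Fintype.card_fin]
    omega
  have hq : ∀ i : {a : Az // a ∈ L}, ∃ u, f i.1 = Sum.inl u := fun i => (mem_filter.1 i.2).2
  choose q hq using hq
  have hqU : ∀ i, q i ∈ U ∧ (star2 K v).Adj i.1.1 (q i) := by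
    intro i
    have := hfτ i.1
    rw [hq i] at this
    rcases mem_union.1 this with hm | hm
    · obtain ⟨u, hu, he⟩ := mem_image.1 hm
      have := Sum.inl_injective he
      subst this
      exact mem_filter.1 hu
    · obtain ⟨u, _, he⟩ := mem_image.1 hm
      cases he
  have hqU' : ∀ i, π (q i) ≠ π v ∧ π (q i) ≠ π z ∧ q i ∉ Az := fun i => (mem_filter.1 (hqU i).1).2
  refine minor_of_pairs G K h.infl.sub h.infl.p2 (ι := {a : Az // a ∈ L}) (fun i => i.1.1) q ?_ ?_ ?_
    (fun i => (hqU i).2.1) (X ∪ Y) ?_ ?_ ?_ ?_ k ?_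
  · intro i j hij
    exact Subtype.ext (Subtype.ext hij)
  · intro i j hij
    have : f i.1 = f j.1 := by rw [hq i, hq j, hij]
    exact Subtype.ext (hfinj this)
  · intro i j hij
    apply (hqU' j).2.2
    rw [← hij]
    exact i.1.2
  · intro u hu w hw huw
    rw [mem_union, mem_bag, mem_bag] at hu hw
    rw [h.infl.adj]
    refine ⟨huw, ?_⟩
    rcases hu with hu | hu <;> rcases hw with hw | hw
    · exact Or.inl (hu.trans hw.symm)
    · right
      exact (h.infl.tw z w u hw.symm (h.infl.tw v u z hu.symm hvz).symm).symm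
    · right
      exact h.infl.tw z u w hu.symm (h.infl.tw v w z hw.symm hvz).symm
    · exact Or.inl (hu.trans hw.symm)
  · intro i hi
    obtain ⟨hiA, hzi⟩ := (memAz i.1.1).1 i.1.2
    rcases mem_union.1 hi with hi | hi
    · rw [mem_bag] at hi; exact h.avoid _ hiA hi
    · rw [mem_bag] at hi; exact h.infl.ne hzi hi.symm
  · intro i hi
    rcases mem_union.1 hi with hi | hi
    · rw [mem_bag] at hi; exact (hqU' i).1 hi
    · rw [mem_bag] at hi; exact (hqU' i).2.1 hi
  · intro u hu i
    rcases mem_union.1 hu with hu | hu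
    · rw [mem_bag] at hu
      rcases (hqU i).2.2 with e | e
      · exact Or.inl (h.infl.sub _ _ (h.infl.tw v u _ hu.symm e))
      · exact Or.inr (h.infl.sub _ _ (h.infl.tw v u _ hu.symm e))
    · rw [mem_bag] at hu
      exact Or.inl (h.infl.sub _ _ (h.infl.tw z u _ hu.symm ((memAz _).1 i.1.2).2))
  · rw [Fintype.card_coe]
    have hdXY : Disjoint X Y := by
      rw [Finset.disjoint_left]
      intro w hw hw'
      rw [mem_bag] at hw hw'
      exact hzv (hw'.symm.trans hw)
    rw [card_union_of_disjoint hdXY]
    omega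

end

end N684.HI
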