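import Pool.Agent.N684.HI.C

/-! Hadwiger's conjecture for clique inflations of `2K₂`-free graphs: the core theorem. -/

set_option autoImplicit false

namespace N684.HI

open Finset TH481.DM

open Classical in
lemma fam_card {V : Type} (F : Finset (Finset V)) (S : Finset V) (hodd : ∀ O ∈ F, Odd O.card)
    (hdisj : ∀ O ∈ F, ∀ O' ∈ F, O ≠ O' → Disjoint O O') (hsub : ∀ O ∈ F, O ⊆ S) :
    F.card ≤ S.card := by
  have hbu : F.biUnion id ⊆ S := by
    intro x hx
    obtain ⟨O, hO, hxO⟩ := mem_biUnion.1 hx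
    exact hsub O hO hxO
  have hbc : (F.biUnion id).card = ∑ O ∈ F, O.card :=
    card_biUnion (fun O hO O' hO' h => hdisj O hO O' hO' h)
  have h1 : F.card ≤ ∑ O ∈ F, O.card := by
    rw [Finset.card_eq_sum_ones]
    exact Finset.sum_le_sum (fun O hO => (hodd O hO).pos)
  have := card_le_card hbu
  omega

open Classical in
/-- The barrier analysis. -/
lemma barrier {V W : Type} [Fintype V] {G K : SimpleGraph V} {π : V → W} (hI : Infl G K π) (k : ℕ)
    (hdeg : ∀ w, k ≤ (bag π w).card + (nb K w).card)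
    (hcol : ¬ G.Colorable (k - 1)) (hn : 2 * k ≤ Fintype.card V + 1) (hno : ¬ SM G k)
    (v : V) (hmax : ∀ w, (bag π w).card ≤ (bag π v).card)
    (l : ℕ) (hl : l + 2 * k = Fintype.card V + (bag π v).card)
    (A : Finset V) (F : Finset (Finset V)) (hAT : A ⊆ univ \ bag π v)
    (hodd : ∀ O ∈ F, Odd O.card) (hdisj : ∀ O ∈ F, ∀ O' ∈ F, O ≠ O' → Disjoint O O')
    (hsub : ∀ O ∈ F, O ⊆ (univ \ bag π v) \ A)
    (hcl : ∀ O ∈ F, ∀ x ∈ O, ∀ y ∈ univ \ bag π v, (star2 K v).Adj x y → y ∈ O ∨ y ∈ A)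
    (hF : A.card + l + 2 ≤ F.card) : False := by
  set X := bag π v with hX
  have hXpos : 0 < X.card := card_pos.2 ⟨v, (mem_bag π v v).2 rfl⟩
  have hT : (univ \ X).card + X.card = Fintype.card V := by
    rw [card_sdiff_add_card_eq_card (subset_univ _), card_univ]
  have memT : ∀ w, w ∈ (univ \ X : Finset V) ↔ π w ≠ π v := fun w => by
    rw [mem_sdiff, mem_bag]; simp
  have hcS : ((univ \ X) \ A).card + A.card = (univ \ X).card := card_sdiff_add_card_eq_card hAT
  have hcF := fam_card F ((univ \ X) \ A) hodd hdisj hsub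
  have hAk : A.card + X.card + 1 ≤ k := by omega
  -- membership facts
  have hOv : ∀ O ∈ F, ∀ x ∈ O, π x ≠ π v := fun O hO x hx =>
    (memT x).1 (mem_sdiff.1 (hsub O hO hx)).1
  have hOA : ∀ O ∈ F, ∀ x ∈ O, x ∉ A := fun O hO x hx => (mem_sdiff.1 (hsub O hO hx)).2
  have hcl' : ∀ O ∈ F, ∀ x ∈ O, ∀ y, π y ≠ π v → y ∉ A → K.Adj x y →
      (K.Adj v x ∨ K.Adj v y) → y ∈ O := by
    intro O hO x hx y hyv hyA hxy hv
    rcases hcl O hO x hx y ((memT y).2 hyv) ⟨hxy, hv⟩ with h | h
    · exact h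
    · exact absurd h hyA
  have hcross : ∀ O ∈ F, ∀ O' ∈ F, O ≠ O' → ∀ a ∈ O, ∀ b ∈ O', (K.Adj v a ∨ K.Adj v b) →
      ¬ K.Adj a b := by
    intro O hO O' hO' hne a ha b hb hv hab
    have := hcl' O hO a ha b (hOv O' hO' b hb) (hOA O' hO' b hb) hab hv
    exact (Finset.disjoint_left.1 (hdisj O hO O' hO' hne) this) hb
  have hvw : ∀ w, K.Adj v w → π w ≠ π v := fun w h e => hI.ne h e.symm
  -- `N \ A` is nonempty
  have hRA : ∃ z0, K.Adj v z0 ∧ z0 ∉ A := by
    by_contra hcon
    push Not at hcon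
    have : nb K v ⊆ A := fun w hw => hcon w ((mem_nb _ _ _).1 hw)
    have := card_le_card this
    have := hdeg v
    rw [← hX] at this
    omega
  by_cases hF1 : ∃ O1 ∈ F, ∃ O2 ∈ F, O1 ≠ O2 ∧
      (∃ z ∈ O1, ∃ x ∈ O1, K.Adj z x ∧ K.Adj v z) ∧ (∃ z ∈ O2, ∃ x ∈ O2, K.Adj z x ∧ K.Adj v z)
  · obtain ⟨O1, hO1, O2, hO2, hne, ⟨z1, hz1, x1, hx1, hzx1, hvz1⟩, ⟨z2, hz2, x2, hx2, hzx2, hvz2⟩⟩ := hF1
    have hd12 := Finset.disjoint_left.1 (hdisj O1 hO1 O2 hO2 hne)
    -- no edge inside O1 or O2 with both ends in N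
    have hRR1 : ∀ a ∈ O1, ∀ b ∈ O1, K.Adj a b → K.Adj v a → ¬ K.Adj v b := by
      intro a ha b hb hab hva hvb
      rcases hI.p2 a b z2 x2 hab hzx2 with h | h | h | h
      · exact hcross O1 hO1 O2 hO2 hne _ ha _ hz2 (Or.inl hva) h
      · exact hcross O1 hO1 O2 hO2 hne _ ha _ hx2 (Or.inl hva) h
      · exact hcross O1 hO1 O2 hO2 hne _ hb _ hz2 (Or.inl hvb) h
      · exact hcross O1 hO1 O2 hO2 hne _ hb _ hx2 (Or.inl hvb) h
    have hRR2 : ∀ a ∈ O2, ∀ b ∈ O2, K.Adj a b → K.Adj v a → ¬ K.Adj v b := by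
      intro a ha b hb hab hva hvb
      rcases hI.p2 a b z1 x1 hab hzx1 with h | h | h | h
      · exact hcross O2 hO2 O1 hO1 hne.symm _ ha _ hz1 (Or.inl hva) h
      · exact hcross O2 hO2 O1 hO1 hne.symm _ ha _ hx1 (Or.inl hva) h
      · exact hcross O2 hO2 O1 hO1 hne.symm _ hb _ hz1 (Or.inl hvb) h
      · exact hcross O2 hO2 O1 hO1 hne.symm _ hb _ hx1 (Or.inl hvb) h
    have hvx1 : ¬ K.Adj v x1 := hRR1 z1 hz1 x1 hx1 hzx1 hvz1
    have hvx2 : ¬ K.Adj v x2 := hRR2 z2 hz2 x2 hx2 hzx2 hvz2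
    have hx12 : K.Adj x1 x2 := by
      rcases hI.p2 z1 x1 z2 x2 hzx1 hzx2 with h | h | h | h
      · exact absurd h (hcross O1 hO1 O2 hO2 hne _ hz1 _ hz2 (Or.inl hvz1))
      · exact absurd h (hcross O1 hO1 O2 hO2 hne _ hz1 _ hx2 (Or.inl hvz1))
      · exact absurd h (hcross O1 hO1 O2 hO2 hne _ hx1 _ hz2 (Or.inr hvz2))
      · exact h
    have hR12 : ∀ z, K.Adj v z → z ∉ A → z ∈ O1 ∨ z ∈ O2 := by
      intro z hvz hzA
      rcases hI.p2 v z x1 x2 hvz hx12 with h | h | h | h
      · exact absurd h hvx1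
      · exact absurd h hvx2
      · left; exact hcl' O1 hO1 x1 hx1 z (hvw z hvz) hzA h.symm (Or.inr hvz)
      · right; exact hcl' O2 hO2 x2 hx2 z (hvw z hvz) hzA h.symm (Or.inr hvz)
    have hcover : ∀ y, π y ≠ π v → y ∉ A → y ∈ O1 ∨ y ∈ O2 := by
      intro y hyv hyA
      by_contra hy
      push Not at hy
      have hvy : ¬ K.Adj v y := fun h => by
        rcases hR12 y h hyA with h' | h'
        · exact hy.1 h'
        · exact hy.2 h'
      have hyR : ∀ z, K.Adj v z → z ∉ A → ¬ K.Adj z y := by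
        intro z hvz hzA hzy
        rcases hR12 z hvz hzA with h | h
        · exact hy.1 (hcl' O1 hO1 z h y hyv hyA hzy (Or.inl hvz))
        · exact hy.2 (hcl' O2 hO2 z h y hyv hyA hzy (Or.inl hvz))
      have : nb K y ⊆ A := by
        intro x hx
        have hx := (mem_nb _ _ _).1 hx
        by_contra hxA
        have hxv : π x ≠ π v := fun e => hvy (hI.tw x v y e hx.symm)
        have hvx : ¬ K.Adj v x := fun h => hyR x h hxA hx.symm
        have key : ∀ z, K.Adj v z → z ∉ A → K.Adj z x := by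
          intro z hvz hzA
          rcases hI.p2 v z y x hvz hx with h | h | h | h
          · exact absurd h hvy
          · exact absurd h hvx
          · exact absurd h (hyR z hvz hzA)
          · exact h
        have e1 := hcl' O1 hO1 z1 hz1 x hxv hxA (key z1 hvz1 (hOA O1 hO1 z1 hz1)) (Or.inl hvz1)
        have e2 := hcl' O2 hO2 z2 hz2 x hxv hxA (key z2 hvz2 (hOA O2 hO2 z2 hz2)) (Or.inl hvz2)
        exact hd12 e1 e2
      have e1 := card_le_card this
      have e2 := hdeg y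
      have e3 := hmax y
      omega
    -- F = {O1, O2}
    have hF2 : F ⊆ {O1, O2} := by
      intro O hO
      by_contra hcon
      rw [mem_insert, mem_singleton, not_or] at hcon
      obtain ⟨y, hy⟩ := card_pos.1 (hodd O hO).pos
      rcases hcover y (hOv O hO y hy) (hOA O hO y hy) with h | h
      · exact (Finset.disjoint_left.1 (hdisj O hO O1 hO1 hcon.1) hy) h
      · exact (Finset.disjoint_left.1 (hdisj O hO O2 hO2 hcon.2) hy) h
    have hFc : F.card ≤ 2 := (card_le_card hF2).trans card_le_two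
    have hA0 : A = ∅ := by rw [← card_eq_zero]; omega
    -- sizes
    set D1 := O1.filter (fun x => ¬ K.Adj v x) with hD1
    set D2 := O2.filter (fun x => ¬ K.Adj v x) with hD2
    set R1 := O1.filter (fun x => K.Adj v x) with hR1
    set R2 := O2.filter (fun x => K.Adj v x) with hR2
    have hs1 : R1.card + D1.card = O1.card := card_filter_add_card_filter_not _
    have hs2 : R2.card + D2.card = O2.card := card_filter_add_card_filter_not _
    have hR1p : 0 < R1.card := card_pos.2 ⟨z1, mem_filter.2 ⟨hz1, hvz1⟩⟩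
    have hR2p : 0 < R2.card := card_pos.2 ⟨z2, mem_filter.2 ⟨hz2, hvz2⟩⟩
    have hD1p : 0 < D1.card := card_pos.2 ⟨x1, mem_filter.2 ⟨hx1, hvx1⟩⟩
    have hD2p : 0 < D2.card := card_pos.2 ⟨x2, mem_filter.2 ⟨hx2, hvx2⟩⟩
    have hN1 : nb K z1 ⊆ X ∪ D1 := by
      intro w hw
      have hw := (mem_nb _ _ _).1 hw
      by_cases hwv : π w = π v
      · exact mem_union_left _ ((mem_bag π w v).2 hwv)
      · apply mem_union_right
        have hw1 := hcl' O1 hO1 z1 hz1 w hwv (by rw [hA0]; simp) hw (Or.inl hvz1)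
        exact mem_filter.2 ⟨hw1, hRR1 z1 hz1 w hw1 hw hvz1⟩
    have hN2 : nb K z2 ⊆ X ∪ D2 := by
      intro w hw
      have hw := (mem_nb _ _ _).1 hw
      by_cases hwv : π w = π v
      · exact mem_union_left _ ((mem_bag π w v).2 hwv)
      · apply mem_union_right
        have hw1 := hcl' O2 hO2 z2 hz2 w hwv (by rw [hA0]; simp) hw (Or.inl hvz2)
        exact mem_filter.2 ⟨hw1, hRR2 z2 hz2 w hw1 hw hvz2⟩
    have hN1c := (card_le_card hN1).trans (card_union_le _ _)
    have hN2c := (card_le_card hN2).trans (card_union_le _ _)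
    have hdz1 := hdeg z1
    have hdz2 := hdeg z2
    have hdv := hdeg v
    have hmz1 := hmax z1
    have hmz2 := hmax z2
    rw [← hX] at hdv
    have hNv : nb K v ⊆ R1 ∪ R2 := by
      intro w hw
      have hw := (mem_nb _ _ _).1 hw
      rcases hR12 w hw (by rw [hA0]; simp) with h | h
      · exact mem_union_left _ (mem_filter.2 ⟨h, hw⟩)
      · exact mem_union_right _ (mem_filter.2 ⟨h, hw⟩)
    have hNvc := (card_le_card hNv).trans (card_union_le _ _)
    have hOO : (O1 ∪ O2).card = O1.card + O2.card := card_union_of_disjoint (hdisj O1 hO1 O2 hO2 hne)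
    have hOOT : (O1 ∪ O2).card ≤ (univ \ X : Finset V).card := by
      apply card_le_card
      intro w hw
      rcases mem_union.1 hw with h | h
      · exact (memT w).2 (hOv O1 hO1 w h)
      · exact (memT w).2 (hOv O2 hO2 w h)
    have ho1 := Nat.odd_iff.1 (hodd O1 hO1)
    have ho2 := Nat.odd_iff.1 (hodd O2 hO2)
    omega
  · -- at most one member has a star2-edge
    set Fz := F.filter (fun O => ∀ z ∈ O, ∀ x ∈ O, K.Adj z x → ¬ K.Adj v z) with hFz
    set Fn := F.filter (fun O => ¬ ∀ z ∈ O, ∀ x ∈ O, K.Adj z x → ¬ K.Adj v z) with hFn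
    have hFF : Fz.card + Fn.card = F.card := card_filter_add_card_filter_not _
    have hFn1 : Fn.card ≤ 1 := by
      rw [card_le_one]
      intro O hO O' hO'
      by_contra hne
      apply hF1
      obtain ⟨hO, h⟩ := mem_filter.1 hO
      obtain ⟨hO', h'⟩ := mem_filter.1 hO'
      push Not at h h'
      obtain ⟨z, hz, x, hx, hzx, hvz⟩ := h
      obtain ⟨z', hz', x', hx', hzx', hvz'⟩ := h'
      exact ⟨O, hO, O', hO', hne, ⟨z, hz, x, hx, hzx, hvz⟩, ⟨z', hz', x', hx', hzx', hvz'⟩⟩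
    set Z := (univ : Finset V).filter (fun z => π z ≠ π v ∧ z ∉ A ∧
      ∀ y, π y ≠ π v → y ∉ A → ¬ (star2 K v).Adj z y) with hZ
    have memZ : ∀ z, z ∈ Z ↔ π z ≠ π v ∧ z ∉ A ∧ ∀ y, π y ≠ π v → y ∉ A → ¬ (star2 K v).Adj z y :=
      fun z => by rw [hZ, mem_filter]; simp
    have hZc : Fz.card ≤ Z.card := by
      refine fam_card Fz Z (fun O hO => hodd O (mem_filter.1 hO).1)
        (fun O hO O' hO' h => hdisj O (mem_filter.1 hO).1 O' (mem_filter.1 hO').1 h) ?_
      intro O hO z hz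
      obtain ⟨hOF, hOz⟩ := mem_filter.1 hO
      refine (memZ z).2 ⟨hOv O hOF z hz, hOA O hOF z hz, ?_⟩
      rintro y hyv hyA ⟨hzy, hv⟩
      have hyO := hcl' O hOF z hz y hyv hyA hzy hv
      rcases hv with hv | hv
      · exact hOz z hz y hyO hzy hv
      · exact hOz y hyO z hz hzy.symm hv
    by_cases hZR : ∃ z ∈ Z, K.Adj v z
    · have hB : Bar2 G K π k v A Z := ⟨hI, hdeg, hmax, fun a ha => (memT a).1 (hAT ha), hAk, memZ,
        by rw [← hX]; omega, hZR⟩
      exact hno (hB.minor hcol hn)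
    · push Not at hZR
      obtain ⟨z0, hvz0, hz0A⟩ := hRA
      obtain ⟨y, hy⟩ : Z.Nonempty := card_pos.1 (by omega)
      obtain ⟨hyv, hyA, hyiso⟩ := (memZ y).1 hy
      have hZind : ∀ y ∈ Z, ∀ y' ∈ Z, ¬ K.Adj y y' := by
        intro y hy y' hy' hyy
        rcases hI.p2 v z0 y y' hvz0 hyy with h | h | h | h
        · exact hZR y hy h
        · exact hZR y' hy' h
        · exact ((memZ y).1 hy).2.2 z0 (hvw z0 hvz0) hz0A ⟨h.symm, Or.inr hvz0⟩
        · exact ((memZ y').1 hy').2.2 z0 (hvw z0 hvz0) hz0A ⟨h.symm, Or.inr hvz0⟩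
      set D := (univ \ X).filter (fun w => ¬ K.Adj v w) with hD
      have hDc : (nb K v).card + D.card = (univ \ X).card := by
        rw [← card_filter_add_card_filter_not (s := univ \ X) (fun w => K.Adj v w)]
        congr 1
        congr 1
        ext w
        rw [mem_nb, mem_filter, memT]
        exact ⟨fun h => ⟨hvw w h, h⟩, fun h => h.2⟩
      have hZD : Z ⊆ D := fun y hy => mem_filter.2 ⟨(memT y).2 ((memZ y).1 hy).1, hZR y hy⟩
      have hDZ : (D \ Z).card + Z.card = D.card := card_sdiff_add_card_eq_card hZD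
      have hNy : nb K y ⊆ A ∪ (D \ Z) := by
        intro w hw
        have hw := (mem_nb _ _ _).1 hw
        rw [mem_union, mem_sdiff]
        by_cases hwA : w ∈ A
        · exact Or.inl hwA
        · right
          have hwv : π w ≠ π v := fun e => hZR y hy (hI.tw w v y e hw.symm)
          have hvw' : ¬ K.Adj v w := fun h => hyiso w hwv hwA ⟨hw, Or.inr h⟩
          exact ⟨mem_filter.2 ⟨(memT w).2 hwv, hvw'⟩, fun h => hZind y hy w h hw⟩
      have h3 := (card_le_card hNy).trans (card_union_le _ _)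
      have h4 := hdeg y
      have h5 := hdeg v
      have h6 := hmax y
      rw [← hX] at h5
      omega

open Classical in
/-- The core theorem. -/
theorem core {V W : Type} [Fintype V] {G K : SimpleGraph V} {π : V → W} (hI : Infl G K π) (k : ℕ)
    (hdeg : ∀ w, k ≤ (bag π w).card + (nb K w).card)
    (hcol : ¬ G.Colorable (k - 1)) (hn : 2 * k ≤ Fintype.card V + 1) : SM G k := by
  by_contra hno
  have hk : 1 ≤ k := by
    by_contra h0
    have h0 : k = 0 := by omega
    subst h0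
    exact hno ⟨fun _ => ∅, fun i => i.elim0, fun i => i.elim0, fun i => i.elim0, fun i => i.elim0⟩
  have hne : (univ : Finset V).Nonempty := by
    rw [← card_pos, card_univ]; omega
  obtain ⟨v, _, hmax⟩ := exists_max_image univ (fun w => (bag π w).card) hne
  have hmax' : ∀ w, (bag π w).card ≤ (bag π v).card := fun w => hmax w (mem_univ w)
  have hXpos : 0 < (bag π v).card := card_pos.2 ⟨v, (mem_bag π v v).2 rfl⟩
  have hXclique : ∀ u ∈ bag π v, ∀ w ∈ bag π v, u ≠ w → G.Adj u w := by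
    intro u hu w hw huw
    rw [mem_bag] at hu hw
    exact (hI.adj u w).2 ⟨huw, Or.inl (hu.trans hw.symm)⟩
  have hxk : (bag π v).card < k := by
    by_contra hcon
    exact hno (minor_of_clique G (bag π v) hXclique k (not_lt.1 hcon))
  have hT : (univ \ bag π v).card + (bag π v).card = Fintype.card V := by
    rw [card_sdiff_add_card_eq_card (subset_univ _), card_univ]
  obtain ⟨l, hl⟩ : ∃ l, l + 2 * k = Fintype.card V + (bag π v).card :=
    ⟨Fintype.card V + (bag π v).card - 2 * k, by omega⟩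
  obtain ⟨U, m, hUT, hUc, hm⟩ := tb_parity (star2 K v) (univ \ bag π v) l
    ⟨Fintype.card V - k, by omega⟩ (fun A F hAT hodd hdisj hsub hcl hF =>
      barrier hI k hdeg hcol hn hno v hmax' l hl A F hAT hodd hdisj hsub hcl hF)
  apply hno
  have hTU : ((univ \ bag π v) \ U).card + U.card = (univ \ bag π v).card :=
    card_sdiff_add_card_eq_card hUT
  refine minor_of_matching G K hI.sub hI.p2 ((univ \ bag π v) \ U) (bag π v) m
    (fun x hx => ⟨(hm x hx).1, (hm x hx).2.1, (hm x hx).2.2.1⟩) ?_ hXclique ?_ k (by omega)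
  · rw [Finset.disjoint_left]
    intro x hx hx'
    exact (mem_sdiff.1 (mem_sdiff.1 hx').1).2 hx
  · intro u hu x hx
    rw [mem_bag] at hu
    rcases (hm x hx).2.2.2 with h | h
    · exact Or.inl (hI.sub _ _ (hI.tw v u _ hu.symm h))
    · exact Or.inr (hI.sub _ _ (hI.tw v u _ hu.symm h))

end N684.HI
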