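import Pool.Agent.N684.HI.D

/-! Hadwiger's conjecture for clique inflations of `2K₂`-free graphs: reduction to one component of
the complement of a smallest counterexample. -/

set_option autoImplicit false

namespace N684.HI

open Finset TH481.DM Pool.Agent.W212.EFF

open Classical in
lemma good_set' {V : Type} [Fintype V] (G : SimpleGraph V) (k : ℕ)
    (h1 : ¬ G.Colorable k) (h2 : ¬ SM G (k + 1))
    (hmin : ∀ U : Set V, U ≠ Set.univ → ∀ j, ¬ (G.induce U).Colorable j →
      SM (G.induce U) (j + 1))
    (A : Finset V) (hA : A.Nonempty) (hj : ∀ x ∈ A, ∀ y ∈ Aᶜ, G.Adj x y)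
    (hgood : SMIn G (A : Set V) (Y (Ind G) A)) : False := by
  have hk := lt_Y_univ G k h1
  have hun : Y (Ind G) (univ : Finset V) ≤ Y (Ind G) A + Y (Ind G) Aᶜ := by
    have := Y_union_le (ind_cpx G) A Aᶜ
    rwa [Finset.union_compl] at this
  rcases Nat.eq_zero_or_pos (Y (Ind G) Aᶜ) with h0 | h0
  · exact h2 (sm_of_smIn G _ _ _ hgood (by omega))
  · have hne : ((Aᶜ : Finset V) : Set V) ≠ Set.univ := by
      obtain ⟨x, hx⟩ := hA
      intro h
      have : x ∈ ((Aᶜ : Finset V) : Set V) := by rw [h]; trivial
      rw [mem_coe, mem_compl] at this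
      exact this hx
    have h3 := hmin _ hne _ (not_colorable_induce G Aᶜ h0)
    have h4 := smIn_of_induce G _ _ h3
    exact h2 (sm_join G _ _ _ _ hgood h4 (fun x hx y hy => hj x (mem_coe.1 hx) y (mem_coe.1 hy)) _
      (by omega))

open Classical in
lemma crit_of_min' {V : Type} [Fintype V] (G : SimpleGraph V) (k : ℕ)
    (h1 : ¬ G.Colorable k) (h2 : ¬ SM G (k + 1))
    (hmin : ∀ U : Set V, U ≠ Set.univ → ∀ j, ¬ (G.induce U).Colorable j →
      SM (G.induce U) (j + 1)) (v : V) :
    Y (Ind G) ((univ : Finset V).erase v) < Y (Ind G) (univ : Finset V) := by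
  have hk := lt_Y_univ G k h1
  by_contra hcon
  have hcon := not_lt.1 hcon
  have hne : (((univ : Finset V).erase v : Finset V) : Set V) ≠ Set.univ := by
    intro h
    have : v ∈ (((univ : Finset V).erase v : Finset V) : Set V) := by rw [h]; trivial
    simp at this
  have h3 := hmin _ hne _ (not_colorable_induce G ((univ : Finset V).erase v) (by omega))
  exact h2 (sm_of_smIn G _ _ _ (smIn_of_induce G _ _ h3) (by omega))

open Classical in
lemma comp_crit {V : Type} [Fintype V] (G H : SimpleGraph V)
    (hHadj : ∀ u v, H.Adj u v ↔ u ≠ v ∧ ¬ G.Adj u v)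
    (hcrit : ∀ v, Y (Ind G) ((univ : Finset V).erase v) < Y (Ind G) (univ : Finset V)) (a : V) :
    ∀ v ∈ comp H a, Y (Ind G) ((comp H a).erase v) < Y (Ind G) (comp H a) := by
  have hjoin := comp_joined G H hHadj a
  intro v hv
  have h1 : Y (Ind G) ((comp H a).erase v) +
      Y (Ind G) (((univ : Finset V).erase v) \ ((comp H a).erase v)) ≤
      Y (Ind G) ((univ : Finset V).erase v) := by
    apply Y_split (ind_cpx G) (erase_subset_erase _ (subset_univ _))
    intro x hx y hy
    rw [ind_pair]
    intro hcon
    apply hcon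
    refine hjoin x (mem_of_mem_erase hx) y ?_
    intro hy'
    rw [mem_sdiff] at hy
    exact hy.2 (mem_erase.2 ⟨ne_of_mem_erase hy.1, hy'⟩)
  have h2 : Y (Ind G) (univ \ comp H a) ≤
      Y (Ind G) (((univ : Finset V).erase v) \ ((comp H a).erase v)) := by
    apply Y_mono (ind_cpx G)
    intro y hy
    rw [mem_sdiff] at hy ⊢
    exact ⟨mem_erase.2 ⟨fun h => hy.2 (h ▸ hv), mem_univ _⟩, fun h => hy.2 (mem_of_mem_erase h)⟩
  have h3 : Y (Ind G) (univ : Finset V) ≤ Y (Ind G) (comp H a) + Y (Ind G) (univ \ comp H a) := by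
    have := Y_union_le (ind_cpx G) (comp H a) (univ \ comp H a)
    rwa [Finset.union_sdiff_of_subset (subset_univ _)] at this
  have := hcrit v
  omega

open Classical in
/-- A vertex whose removal decreases the chromatic number has large degree. -/
lemma deg_of_crit {V : Type} (G : SimpleGraph V) (A : Finset V) (v : V)
    (h : Y (Ind G) (A.erase v) < Y (Ind G) A) :
    Y (Ind G) A - 1 ≤ (A.filter (fun w => G.Adj v w)).card := by
  by_contra hcon
  push Not at hcon
  set K := Y (Ind G) A - 1 with hK
  have h1 : Cov (Ind G) K (A.erase v) := (Y_spec (ind_cpx G) (A.erase v)).le (ind_cpx G) (by omega)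
  obtain ⟨c, hc1, hc2⟩ := (cov_iff G K (A.erase v)).1 h1
  have h2 : ∃ i ∈ range K, i ∉ (A.filter (fun w => G.Adj v w)).image c := by
    by_contra hno
    push Not at hno
    have : range K ⊆ (A.filter (fun w => G.Adj v w)).image c := fun i hi => hno i hi
    have := (card_le_card this).trans card_image_le
    rw [card_range] at this
    omega
  obtain ⟨i, hi, hni⟩ := h2
  rw [mem_range] at hi
  have h3 : Cov (Ind G) K A := by
    rw [cov_iff]
    refine ⟨Function.update c v i, ?_, ?_⟩
    · intro w hw
      by_cases hwv : w = v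
      · rw [hwv, Function.update_self]; exact hi
      · rw [Function.update_of_ne hwv]; exact hc1 w (mem_erase.2 ⟨hwv, hw⟩)
    · intro u hu w hw huw
      by_cases huv : u = v
      · have hwv : w ≠ v := fun h => huw.ne (huv.trans h.symm)
        rw [huv, Function.update_self, Function.update_of_ne hwv]
        intro h
        exact hni (mem_image.2 ⟨w, mem_filter.2 ⟨hw, huv ▸ huw⟩, h.symm⟩)
      · by_cases hwv : w = v
        · rw [hwv, Function.update_self, Function.update_of_ne huv]
          intro h
          exact hni (mem_image.2 ⟨u, mem_filter.2 ⟨hu, hwv ▸ huw.symm⟩, h⟩)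
        · rw [Function.update_of_ne huv, Function.update_of_ne hwv]
          exact hc2 u (mem_erase.2 ⟨huv, hu⟩) w (mem_erase.2 ⟨hwv, hw⟩) huw
  have := Y_le h3
  omega

lemma Infl.induce {V W : Type} {G K : SimpleGraph V} {π : V → W} (h : Infl G K π) (U : Set V) :
    Infl (G.induce U) (K.induce U) (fun x => π x.1) where
  p2 := fun a b c d hab hcd => h.p2 a.1 b.1 c.1 d.1 hab hcd
  tw := fun x y z hxy hxz => h.tw x.1 y.1 z.1 hxy hxz
  adj := fun x y => by
    rw [SimpleGraph.comap_adj, SimpleGraph.comap_adj, Function.Embedding.subtype_apply,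
      Function.Embedding.subtype_apply, h.adj, Ne, Ne, Subtype.ext_iff]

open Classical in
/-- **Hadwiger's conjecture holds for clique inflations of `2K₂`-free graphs**, with branch sets of
at most two vertices. -/
theorem hadwiger_aux : ∀ (n : ℕ) (V W : Type) [Fintype V] (G K : SimpleGraph V) (π : V → W),
    Fintype.card V = n → Infl G K π → ∀ k : ℕ, ¬ G.Colorable k → SM G (k + 1) := by
  intro n
  induction n using Nat.strong_induction_on with
  | _ n ih =>
    intro V W _ G K π hn hI k h1
    by_contra h2
    have hmin : ∀ U : Set V, U ≠ Set.univ → ∀ j, ¬ (G.induce U).Colorable j →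
        SM (G.induce U) (j + 1) := by
      intro U hU j hj
      refine ih (Fintype.card U) ?_ U W (G.induce U) (K.induce U) _ rfl (hI.induce U) j hj
      rw [← hn]
      obtain ⟨x, hx⟩ := (Set.ne_univ_iff_exists_notMem U).1 hU
      exact Fintype.card_subtype_lt hx
    have hcrit := crit_of_min' G k h1 h2 hmin
    obtain ⟨a⟩ : Nonempty V := by
      by_contra hemp
      rw [not_nonempty_iff] at hemp
      exact h1 (SimpleGraph.Colorable.of_isEmpty k)
    have hHadj : ∀ u v, Gᶜ.Adj u v ↔ u ≠ v ∧ ¬ G.Adj u v := fun u v => by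
      rw [SimpleGraph.compl_adj]
    set A := comp Gᶜ a with hA
    have haA : a ∈ A := by
      simp only [hA, comp, mem_filter, mem_univ, true_and]
      exact SimpleGraph.Reachable.refl a
    have hgal : 2 * Y (Ind G) A ≤ A.card + 1 := comp_gallai G Gᶜ hHadj hcrit a
    have hcc : ∀ v ∈ A, Y (Ind G) (A.erase v) < Y (Ind G) A := comp_crit G Gᶜ hHadj hcrit a
    have hpos : 1 ≤ Y (Ind G) A := by
      have := hcc a haA
      omega
    have hjoin := comp_joined G Gᶜ hHadj a
    refine good_set' G k h1 h2 hmin A ⟨a, haA⟩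
      (fun x hx y hy => hjoin x hx y (mem_compl.1 hy)) ?_
    apply smIn_of_induce
    refine core (hI.induce (A : Set V)) (Y (Ind G) A) ?_
      (not_colorable_induce G A hpos) ?_
    · rintro ⟨v, hv⟩
      have hv' : v ∈ A := by simpa using hv
      set v' : (A : Set V) := ⟨v, hv⟩ with hv'def
      have e1 := deg_of_crit G A v (hcc v hv')
      set Bg := bag (fun x : (A : Set V) => π x.1) v' with hBg
      set Nb := nb (K.induce (A : Set V)) v' with hNb
      have e2 : A.filter (fun w => G.Adj v w) ⊆
          (Bg.erase v').image Subtype.val ∪ Nb.image Subtype.val := by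
        intro w hw
        obtain ⟨hwA, hvw⟩ := mem_filter.1 hw
        obtain ⟨hne, hor⟩ := (hI.adj v w).1 hvw
        rw [mem_union]
        rcases hor with e | e
        · left
          exact mem_image.2 ⟨⟨w, by simpa using hwA⟩, mem_erase.2
            ⟨fun h => hne (Subtype.ext_iff.1 h).symm, (mem_bag _ _ _).2 e.symm⟩, rfl⟩
        · right
          exact mem_image.2 ⟨⟨w, by simpa using hwA⟩, (mem_nb _ _ _).2 (by simpa using e), rfl⟩
      have e3 := (card_le_card e2).trans (card_union_le _ _)
      have e4 : ((Bg.erase v').image Subtype.val).card ≤ Bg.card - 1 := by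
        refine card_image_le.trans ?_
        rw [card_erase_of_mem ((mem_bag _ _ _).2 rfl)]
      have e5 : (Nb.image Subtype.val).card ≤ Nb.card := card_image_le
      have e6 : 0 < Bg.card := card_pos.2 ⟨v', (mem_bag _ _ _).2 rfl⟩
      omega
    · simpa using hgal

end N684.HI
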