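import Pool.Agent.N684.HI.E

/-! Substituting graphs with Hadwiger's bound into the vertices of a `2K₂`-free graph. -/

set_option autoImplicit false

namespace N684.HI

open Finset TH481.DM Pool.Agent.W212.EFF

section lift
variable {V V' : Type} (G : SimpleGraph V) (G' : SimpleGraph V') (φ : V' → Set V)

/-- the union of connected pieces over a connected set is connected -/
lemma lift_connected (hc : ∀ p, (G.induce (φ p)).Connected)
    (ha : ∀ p q, G'.Adj p q → ∃ u ∈ φ p, ∃ v ∈ φ q, G.Adj u v) (S : Set V')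
    (hS : (G'.induce S).Connected) : (G.induce (⋃ p ∈ S, φ p)).Connected := by
  set T : Set V := ⋃ p ∈ S, φ p with hT
  have hsub : ∀ p ∈ S, φ p ⊆ T := fun p hp => Set.subset_biUnion_of_mem hp
  have hpiece : ∀ p (hp : p ∈ S), ∀ x (hx : x ∈ φ p) y (hy : y ∈ φ p),
      (G.induce T).Reachable ⟨x, hsub p hp hx⟩ ⟨y, hsub p hp hy⟩ := by
    intro p hp x hx y hy
    have h1 := (hc p).preconnected ⟨x, hx⟩ ⟨y, hy⟩
    have h2 := h1.map (SimpleGraph.induceHomOfLE G (hsub p hp)).toHom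
    exact h2
  have key : ∀ p q : S, (G'.induce S).Walk p q → ∀ x (hx : x ∈ φ p.1) y (hy : y ∈ φ q.1),
      (G.induce T).Reachable ⟨x, hsub p.1 p.2 hx⟩ ⟨y, hsub q.1 q.2 hy⟩ := by
    intro p q w
    induction w with
    | @nil a => intro x hx y hy; exact hpiece a.1 a.2 x hx y hy
    | @cons a b c h w ih =>
      intro x hx y hy
      obtain ⟨u, hu, v, hv, huv⟩ := ha a.1 b.1 h
      have e1 := hpiece a.1 a.2 x hx u hu
      have e2 : (G.induce T).Adj ⟨u, hsub a.1 a.2 hu⟩ ⟨v, hsub b.1 b.2 hv⟩ := huv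
      exact e1.trans (e2.reachable.trans (ih v hv y hy))
  have hne : Nonempty T := by
    obtain ⟨p⟩ := hS.nonempty
    obtain ⟨x⟩ := (hc p.1).nonempty
    exact ⟨⟨x.1, hsub p.1 p.2 x.2⟩⟩
  refine SimpleGraph.Connected.mk ?_
  rintro ⟨x, hx⟩ ⟨y, hy⟩
  obtain ⟨p, hp, hxp⟩ := Set.mem_iUnion₂.1 hx
  obtain ⟨q, hq, hyq⟩ := Set.mem_iUnion₂.1 hy
  obtain ⟨w⟩ := hS.preconnected ⟨p, hp⟩ ⟨q, hq⟩
  exact key ⟨p, hp⟩ ⟨q, hq⟩ w x hxp y hyq

lemma lift_minor (hc : ∀ p, (G.induce (φ p)).Connected)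
    (hd : ∀ p q, p ≠ q → Disjoint (φ p) (φ q))
    (ha : ∀ p q, G'.Adj p q → ∃ u ∈ φ p, ∃ v ∈ φ q, G.Adj u v) (t : ℕ)
    (h : HasCliqueMinor G' t) : HasCliqueMinor G t := by
  obtain ⟨g, hgc, hgd, hga⟩ := h
  refine ⟨fun i => ⋃ p ∈ g i, φ p, fun i => lift_connected G G' φ hc ha (g i) (hgc i), ?_, ?_⟩
  · intro i j hij
    rw [Set.disjoint_left]
    intro x hx hy
    obtain ⟨p, hp, hxp⟩ := Set.mem_iUnion₂.1 hx
    obtain ⟨q, hq, hxq⟩ := Set.mem_iUnion₂.1 hy
    have hpq : p ≠ q := by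
      rintro rfl
      exact (Set.disjoint_left.1 (hgd i j hij)) hp hq
    exact (Set.disjoint_left.1 (hd p q hpq)) hxp hxq
  · intro i j hij
    obtain ⟨p, hp, q, hq, hpq⟩ := hga i j hij
    obtain ⟨u, hu, v, hv, huv⟩ := ha p q hpq
    exact ⟨u, Set.mem_iUnion₂.2 ⟨p, hp, hu⟩, v, Set.mem_iUnion₂.2 ⟨q, hq, hv⟩, huv⟩

end lift

lemma hasCliqueMinor_of_sm {V : Type} (G : SimpleGraph V) (t : ℕ) (h : SM G t) :
    HasCliqueMinor G t := by
  obtain ⟨f, _, h1, h2, h3⟩ := h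
  exact ⟨f, h1, h2, h3⟩

/-- **Substitution theorem.** -/
theorem subst {V W : Type} [Fintype V] (G : SimpleGraph V) (B : SimpleGraph W) (hB : P2 B)
    (π : V → W) (hG : ∀ x y, π x ≠ π y → (G.Adj x y ↔ B.Adj (π x) (π y)))
    (hfib : ∀ b : W, ∀ j : ℕ, ¬ (G.induce {x | π x = b}).Colorable j →
      HasCliqueMinor (G.induce {x | π x = b}) (j + 1))
    (k : ℕ) (hk : ¬ G.Colorable k) : HasCliqueMinor G (k + 1) := by
  classical
  -- chromatic numbers of the fibres
  have hc : ∀ b : W, ∃ c : ℕ, (G.induce {x | π x = b}).Colorable c ∧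
      HasCliqueMinor (G.induce {x | π x = b}) c := by
    intro b
    have hex : ∃ c, (G.induce {x | π x = b}).Colorable c :=
      ⟨_, (G.induce {x | π x = b}).colorable_of_fintype⟩
    refine ⟨Nat.find hex, Nat.find_spec hex, ?_⟩
    rcases Nat.eq_zero_or_pos (Nat.find hex) with h0 | h0
    · rw [h0]
      exact ⟨fun _ => ∅, fun i => i.elim0, fun i => i.elim0, fun i => i.elim0⟩
    · have h1 := Nat.find_min hex (m := Nat.find hex - 1) (by omega)
      have h2 := hfib b _ h1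
      rwa [Nat.sub_add_cancel h0] at h2
  choose c hcol hmin using hc
  have hκ : ∀ b : W, ∃ κ : V → ℕ, (∀ x, π x = b → κ x < c b) ∧
      ∀ x y, π x = b → π y = b → G.Adj x y → κ x ≠ κ y := by
    intro b
    obtain ⟨C⟩ := hcol b
    refine ⟨fun x => if h : π x = b then (C ⟨x, h⟩).1 else 0, ?_, ?_⟩
    · intro x hx
      simp only [hx, dif_pos]
      exact (C ⟨x, hx⟩).2
    · intro x y hx hy hxy h
      simp only [hx, hy, dif_pos] at h
      exact C.valid (v := ⟨x, hx⟩) (w := ⟨y, hy⟩) (by simpa using hxy) (Fin.ext h)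
  choose κ hκ1 hκ2 using hκ
  have hf : ∀ b : W, MinorIn G {x | π x = b} (c b) := fun b => minorIn_of_induce G _ _ (hmin b)
  choose f hfs hfc hfd hfa using hf
  -- the inflated graph
  have : Fintype (Set.range π) := Fintype.ofFinite _
  let V' : Type := Σ b : Set.range π, Fin (c b.1)
  let π' : V' → Set.range π := fun p => p.1
  let K' : SimpleGraph V' := B.comap (fun p => (π' p).1)
  let G' : SimpleGraph V' :=
    { Adj := fun p q => p ≠ q ∧ (π' p = π' q ∨ K'.Adj p q)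
      symm := ⟨fun p q h => ⟨h.1.symm, h.2.imp Eq.symm (fun e => e.symm)⟩⟩
      loopless := ⟨fun p h => h.1 rfl⟩ }
  have hI : Infl G' K' π' :=
    { p2 := fun a b c d hab hcd => hB _ _ _ _ hab hcd
      tw := fun x y z hxy hxz => by
        show B.Adj (π' y).1 (π' z).1
        rw [← hxy]
        exact hxz
      adj := fun x y => Iff.rfl }
  have hG' : ¬ G'.Colorable k := by
    rintro ⟨γ⟩
    apply hk
    let p : V → V' := fun x => ⟨⟨π x, Set.mem_range_self x⟩, ⟨κ (π x) x, hκ1 (π x) x rfl⟩⟩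
    refine ⟨SimpleGraph.Coloring.mk (fun x => γ (p x)) ?_⟩
    intro x y hxy
    apply γ.valid
    by_cases hxy' : π x = π y
    · refine ⟨?_, Or.inl (Subtype.ext hxy')⟩
      intro h
      have h2 : (fun q : V' => (q.2 : ℕ)) (p x) = (fun q : V' => (q.2 : ℕ)) (p y) := by rw [h]
      have h3 : κ (π x) x = κ (π y) y := h2
      rw [← hxy'] at h3
      exact hκ2 (π x) x y rfl hxy'.symm hxy h3
    · refine ⟨?_, Or.inr ((hG x y hxy').1 hxy)⟩
      intro h
      have h2 : (fun q : V' => (q.1.1 : W)) (p x) = (fun q : V' => (q.1.1 : W)) (p y) := by rw [h]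
      exact hxy' h2
  have hSM := hasCliqueMinor_of_sm _ _
    (hadwiger_aux _ V' _ G' K' π' rfl hI k hG')
  refine lift_minor G G' (fun p => f p.1.1 p.2) (fun p => hfc _ _) ?_ ?_ _ hSM
  · rintro ⟨b, i⟩ ⟨b', i'⟩ hne
    by_cases hb : b = b'
    · subst hb
      exact hfd b.1 i i' (fun h => hne (by rw [h]))
    · rw [Set.disjoint_left]
      intro x hx hx'
      apply hb
      apply Subtype.ext
      exact (hfs b.1 i hx : π x = b.1).symm.trans (hfs b'.1 i' hx')
  · rintro ⟨b, i⟩ ⟨b', i'⟩ ⟨hne, hor⟩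
    by_cases hb : b = b'
    · subst hb
      exact hfa b.1 i i' (fun h => hne (by rw [h]))
    · have hadj : B.Adj b.1 b'.1 := by
        rcases hor with h | h
        · exact absurd h hb
        · exact h
      obtain ⟨⟨x, hx⟩⟩ := (hfc b.1 i).nonempty
      obtain ⟨⟨y, hy⟩⟩ := (hfc b'.1 i').nonempty
      have hx' : π x = b.1 := hfs b.1 i hx
      have hy' : π y = b'.1 := hfs b'.1 i' hy
      refine ⟨x, hx, y, hy, (hG x y ?_).2 ?_⟩
      · rw [hx', hy']; exact hadj.ne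
      · rw [hx', hy']; exact hadj

end N684.HI
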